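import Pool.Agent.W217.RS.Defs

set_option autoImplicit false

/-!
# The exponent of matrix multiplication
-/

noncomputable section

namespace Pool.Agent.W217.RS

/-- An instruction of a straight-line program: a real constant, or an arithmetic operation applied
to two earlier values, given by their positions in the list of the values. -/
inductive SI : Type
  | con (c : ℝ)
  | op (o : Op) (i j : ℕ)

/-- The list of the values after a straight-line program; `l` is the list of the values before. -/
def slp : List SI → List ℝ → List ℝ
  | [], l => l
  | .con c :: P, l => slp P (l ++ [c])
  | .op o i j :: P, l => slp P (l ++ [o.val (l.getD i 0) (l.getD j 0)])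

/-- The entries of a matrix, row by row. -/
def ents {n : ℕ} (A : Matrix (Fin n) (Fin n) ℝ) : List ℝ :=
  (List.finRange n).flatMap fun i => (List.finRange n).map fun j => A i j

/-- Two real `n × n` matrices can be multiplied with at most `m` arithmetic operations: there are a
straight-line program of length at most `m` and positions `q i j` such that for all matrices the
value at the position `q i j` is the entry `i, j` of the product. -/
def MulOps (n m : ℕ) : Prop := ∃ (P : List SI) (q : Fin n → Fin n → ℕ), P.length ≤ m ∧
  ∀ A B : Matrix (Fin n) (Fin n) ℝ, ∀ i j, (slp P (ents A ++ ents B)).getD (q i j) 0 = (A * B) i j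

/-- The exponent of matrix multiplication: the infimum of the real numbers `τ` such that two
`n × n` matrices can be multiplied with `O(n ^ τ)` arithmetic operations. -/
def omega : ℝ := sInf {τ : ℝ | ∃ C : ℝ, ∀ n : ℕ, 1 ≤ n → ∃ m : ℕ, (m : ℝ) ≤ C * (n : ℝ) ^ τ ∧
  MulOps n m}

end Pool.Agent.W217.RS
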