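import Pool.Agent.W217.RS.Stm3
import Pool.Agent.W217.RS.Omega

set_option autoImplicit false

/-!
# The answers
-/

noncomputable section

namespace Pool.Agent.W217.RS

/-- The exponent `p` is achievable: there are a program `P` of the real RAM and constants `C`, `k`
such that for all invertible real `n × n` matrices `A`, all `b` and all `0 < ε < 1` the program
halts on the input `A`, `b`, `ε` after at most `C * n ^ 2 * κ_p(A) * (1 + log (n / ε)) ^ k`
elementary operations with an output `x` such that `‖x - A⁻¹ b‖ ≤ ε ‖A⁻¹ b‖`. -/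
def Achievable (p : ℝ) : Prop := ∃ (P : Pr) (C : ℝ) (k : ℕ),
  ∀ (n : ℕ) (A : Matrix (Fin n) (Fin n) ℝ) (b : Fin n → ℝ) (ε : ℝ), 1 ≤ n → A.det ≠ 0 → 0 < ε →
    ε < 1 → ∃ (t : St) (m : ℕ), Run P (inp A b ε) t m ∧
      (m : ℝ) ≤ C * (n : ℝ) ^ 2 * kappa p A * (1 + Real.log (n / ε)) ^ k ∧
      nrm (out n t - A⁻¹.mulVec b) ≤ ε * nrm (A⁻¹.mulVec b)

/-- The program `P` solves all linear systems with matrices in the sets `E n` to accuracy `ε` with
at most `C * n ^ τ * log (n / ε) ^ k` elementary operations. -/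
def Solves (P : Pr) (E : (n : ℕ) → Set (Matrix (Fin n) (Fin n) ℝ)) (C τ : ℝ) (k : ℕ) : Prop :=
  ∀ (n : ℕ), ∀ A ∈ E n, ∀ (b : Fin n → ℝ) (ε : ℝ), 0 < ε → ε < 1 →
    ∃ (t : St) (m : ℕ), Run P (inp A b ε) t m ∧
      (m : ℝ) ≤ C * (n : ℝ) ^ τ * Real.log (n / ε) ^ k ∧
      nrm (A.mulVec (out n t) - b) ≤ ε * nrm b

/-- The matrix with entries `1` and `-1` given by truth values. -/
def rad {n : ℕ} (s : Fin n → Fin n → Bool) : Matrix (Fin n) (Fin n) ℝ :=
  fun i j => if s i j then 1 else -1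

/-- The matrix with entries `1` and `0` given by truth values. -/
def ber {n : ℕ} (s : Fin n → Fin n → Bool) : Matrix (Fin n) (Fin n) ℝ :=
  fun i j => if s i j then 1 else 0

/-- The answer with the exponent `τ`: there is one program such that for each of the three
ensembles (Gaussian, Rademacher, Bernoulli) there are constants `C`, `k` and events `E n` with
probability tending to one such that the program solves all linear systems with matrices in the
events with at most `C * n ^ τ * log (n / ε) ^ k` operations. -/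
def Answer (τ : ℝ) : Prop := ∃ P : Pr,
  (∃ (E : (n : ℕ) → Set (Matrix (Fin n) (Fin n) ℝ)) (C : ℝ) (k : ℕ),
    (∀ n, MeasurableSet {A : Fin n → Fin n → ℝ | Matrix.of A ∈ E n}) ∧
    Filter.Tendsto (fun n => gauss n {A : Fin n → Fin n → ℝ | Matrix.of A ∈ E n}) Filter.atTop
      (nhds 1) ∧ Solves P E C τ k) ∧
  (∃ (E : (n : ℕ) → Set (Matrix (Fin n) (Fin n) ℝ)) (C : ℝ) (k : ℕ),
    Filter.Tendsto (fun n => pr fun s : Fin n → Fin n → Bool => rad s ∈ E n) Filter.atTop
      (nhds 1) ∧ Solves P E C τ k) ∧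
  (∃ (E : (n : ℕ) → Set (Matrix (Fin n) (Fin n) ℝ)) (C : ℝ) (k : ℕ),
    Filter.Tendsto (fun n => pr fun s : Fin n → Fin n → Bool => ber s ∈ E n) Filter.atTop
      (nhds 1) ∧ Solves P E C τ k)

end Pool.Agent.W217.RS
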