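import Pool.Agent.W217.RS.All

set_option autoImplicit false

/-!
# Gaussian matrices: the final result for the program `pMain`
-/

namespace Pool.Agent.W217.RS

open FINAaux in
theorem finA : ∃ (E : (n : ℕ) → Set (Fin n → Fin n → ℝ)) (C : ℝ) (k : ℕ),
    (∀ n, MeasurableSet (E n)) ∧ Filter.Tendsto (fun n => gauss n (E n)) Filter.atTop (nhds 1) ∧
    ∀ (n : ℕ), ∀ A ∈ E n, ∀ (b : Fin n → ℝ) (ε : ℝ), 0 < ε → ε < 1 →
      ∃ (t : St) (m : ℕ), Run pMain (inp (Matrix.of A) b ε) t m ∧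
        (m : ℝ) ≤ C * (n : ℝ) ^ 2 * Real.log (n / ε) ^ k ∧
        nrm ((Matrix.of A).mulVec (out n t) - b) ≤ ε * nrm b := by
  have hG := hGOOD
  have hL := pLOWI pSMALL
  obtain ⟨C, hC⟩ := hSOLVE
  refine ⟨fun n => if 2 ≤ n then Good n else ∅, C * 1728, 3, ?_, ?_, ?_⟩
  · intro n
    by_cases h : 2 ≤ n
    · simp only [if_pos h]; exact hG.1 n
    · simp only [if_neg h]; exact MeasurableSet.empty
  · refine hG.2.congr' ?_
    filter_upwards [Filter.eventually_ge_atTop 2] with n hn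
    rw [if_pos hn]
  · intro n A hA b ε hε hε1
    by_cases h : 2 ≤ n
    swap
    · simp only [if_neg h] at hA
      exact absurd hA (Set.notMem_empty _)
    simp only [if_pos h] at hA
    obtain ⟨hdet, hA1, hA2⟩ := hA
    have hn0 : (0 : ℝ) < n := by
      have : 0 < n := by omega
      exact_mod_cast this
    have hn2 : (2 : ℝ) ≤ n := by exact_mod_cast h
    have hlow := hL n (Matrix.of A) ((n : ℝ) ^ 3) hdet (by positivity) hA2 (by omega)
    obtain ⟨t, m, h1, h2, h3, h4⟩ := hC n (Matrix.of A) b ε _ (by omega) hε hε1 (by positivity) hlow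
    refine ⟨t, m, h1, ?_, h3⟩
    have hS4 : ∑ i, ∑ j, |Matrix.of A i j| ≤ (n : ℝ) ^ 4 := by
      calc ∑ i, ∑ j, |Matrix.of A i j| ≤ ∑ i : Fin n, ∑ j : Fin n, (n : ℝ) ^ 2 :=
            Finset.sum_le_sum fun i _ => Finset.sum_le_sum fun j _ => hA1 i j
        _ = (n : ℝ) ^ 4 := by
            simp only [Finset.sum_const, Finset.card_univ, Fintype.card_fin, nsmul_eq_mul]
            ring
    have hS0 : 0 ≤ ∑ i, ∑ j, |Matrix.of A i j| :=
      Finset.sum_nonneg fun i _ => Finset.sum_nonneg fun j _ => abs_nonneg _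
    obtain ⟨b0, b1⟩ := main_bound n _ ε hn2 hS0 hS4 hε hε1
    have b2 := pow_le_pow_left₀ b0 b1 3
    calc (m : ℝ) ≤ C * (n : ℝ) ^ 2 *
          (1 + Real.log (n * (1 + (∑ i, ∑ j, |Matrix.of A i j|) / (1 / (n * (n : ℝ) ^ 3))) / ε)) ^ 3 := h2
      _ ≤ C * (n : ℝ) ^ 2 * (12 * Real.log (n / ε)) ^ 3 :=
          mul_le_mul_of_nonneg_left b2 (by positivity)
      _ = C * 1728 * (n : ℝ) ^ 2 * Real.log (n / ε) ^ 3 := by ring

end Pool.Agent.W217.RS
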