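import Pool.Agent.W217.RS.P.ANTI
import Pool.Agent.W217.RS.P.ATIL
import Pool.Agent.W217.RS.P.CHECK
import Pool.Agent.W217.RS.P.CONV
import Pool.Agent.W217.RS.P.CSTEP
import Pool.Agent.W217.RS.P.DIAG
import Pool.Agent.W217.RS.P.DIG
import Pool.Agent.W217.RS.P.ENTR
import Pool.Agent.W217.RS.P.FINA
import Pool.Agent.W217.RS.P.FINB
import Pool.Agent.W217.RS.P.FIRST
import Pool.Agent.W217.RS.P.FLOOR
import Pool.Agent.W217.RS.P.GDET
import Pool.Agent.W217.RS.P.GINV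
import Pool.Agent.W217.RS.P.GOOD
import Pool.Agent.W217.RS.P.INIT
import Pool.Agent.W217.RS.P.ITER
import Pool.Agent.W217.RS.P.KAPPA
import Pool.Agent.W217.RS.P.LEVEL
import Pool.Agent.W217.RS.P.LOWI
import Pool.Agent.W217.RS.P.LOWT
import Pool.Agent.W217.RS.P.MACH
import Pool.Agent.W217.RS.P.MAPR
import Pool.Agent.W217.RS.P.NEWT
import Pool.Agent.W217.RS.P.NUMS
import Pool.Agent.W217.RS.P.OFFS
import Pool.Agent.W217.RS.P.OUT
import Pool.Agent.W217.RS.P.PACK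
import Pool.Agent.W217.RS.P.PAR
import Pool.Agent.W217.RS.P.PROD
import Pool.Agent.W217.RS.P.RND
import Pool.Agent.W217.RS.P.RNDM
import Pool.Agent.W217.RS.P.ROW
import Pool.Agent.W217.RS.P.SIZ
import Pool.Agent.W217.RS.P.SMALL
import Pool.Agent.W217.RS.P.SOLVE
import Pool.Agent.W217.RS.P.SOUND
import Pool.Agent.W217.RS.P.START
import Pool.Agent.W217.RS.P.SUMA
import Pool.Agent.W217.RS.P.UPSUM

set_option autoImplicit false

/-!
# Assembly
-/

namespace Pool.Agent.W217.RS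

theorem hPROD : PROD := pPROD pPACK pOFFS pROW (pDIG pFLOOR)

theorem hRNDM : RNDM := pRNDM (pRND pFLOOR)

theorem hLEVEL : LEVEL :=
  pLEVEL pPAR (pSTART pMAPR hRNDM) (pITER (pNEWT pMAPR pDIAG hPROD hRNDM))
    (pCHECK pMAPR pDIAG pSUMA hPROD) pSIZ pATIL

theorem hMACH : MACH := pMACH (pINIT pSUMA pMAPR) hLEVEL pOUT

theorem hCONV : CONV :=
  pCONV pATIL pNUMS pSMALL pUPSUM pENTR pLOWT pFIRST (pCSTEP pSMALL pENTR pLOWT)

theorem hSOLVE : SOLVE := pSOLVE hMACH hCONV (pSOUND pSMALL pUPSUM) pATIL pUPSUM pLOWT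

theorem hGOOD : GOOD := pGOOD pGDET (pGINV pANTI)

theorem hFINB : FINB := pFINB hSOLVE pKAPPA

end Pool.Agent.W217.RS
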