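import Mathlib

set_option autoImplicit false

/-!
# A uniform real RAM

The memory consists of counters (natural numbers) and of arrays of real numbers with two indices.
The address of a real number is the number of an array and two counters, which contain the indices.
Programs are finite expressions; the same program is used for inputs of all sizes. Every arithmetic
operation on real numbers, every use of a real number or of a constant, every comparison of real
numbers, every assignment and all operations on counters are counted (cost one each). The only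
operations on counters are constants, addition and comparison.
-/

noncomputable section

namespace Pool.Agent.W217.RS

/-- The address of a real number: array `arr`, indices in the counters `row` and `col`. -/
structure Ad : Type where
  arr : ℕ
  row : ℕ
  col : ℕ

/-- The memory. -/
structure St : Type where
  /-- counters -/
  c : ℕ → ℕ
  /-- arrays of real numbers -/
  r : ℕ → ℕ → ℕ → ℝ

/-- The number at an address. -/
def St.get (s : St) (x : Ad) : ℝ := s.r x.arr (s.c x.row) (s.c x.col)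

/-- Change of the number at an address. -/
def St.set (s : St) (x : Ad) (v : ℝ) : St :=
  ⟨s.c, Function.update s.r x.arr
    (Function.update (s.r x.arr) (s.c x.row)
      (Function.update (s.r x.arr (s.c x.row)) (s.c x.col) v))⟩

/-- Change of a counter. -/
def St.setc (s : St) (i v : ℕ) : St := ⟨Function.update s.c i v, s.r⟩

/-- The arithmetic operations. -/
inductive Op : Type
  | add | sub | mul | div

/-- Value of an arithmetic operation. -/
def Op.val : Op → ℝ → ℝ → ℝ
  | .add, x, y => x + y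
  | .sub, x, y => x - y
  | .mul, x, y => x * y
  | .div, x, y => x / y

/-- Arithmetic expressions: constants (natural numbers), numbers in the memory, operations. -/
inductive Ex : Type
  | num (k : ℕ)
  | rd (x : Ad)
  | op (o : Op) (a b : Ex)

/-- Value of an arithmetic expression. -/
def Ex.val (s : St) : Ex → ℝ
  | .num k => k
  | .rd x => s.get x
  | .op o a b => o.val (a.val s) (b.val s)

/-- No division by zero occurs in the evaluation of the expression. -/
def Ex.Def (s : St) : Ex → Prop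
  | .num _ => True
  | .rd _ => True
  | .op .div a b => a.Def s ∧ b.Def s ∧ b.val s ≠ 0
  | .op _ a b => a.Def s ∧ b.Def s

/-- The cost of an arithmetic expression: the number of operations, constants and reads. -/
def Ex.size : Ex → ℕ
  | .num _ => 1
  | .rd _ => 1
  | .op _ a b => a.size + b.size + 1

/-- Expressions for counters. -/
inductive Nx : Type
  | num (k : ℕ)
  | var (i : ℕ)
  | add (a b : Nx)

/-- Value of an expression for counters. -/
def Nx.val (s : St) : Nx → ℕ
  | .num k => k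
  | .var i => s.c i
  | .add a b => a.val s + b.val s

/-- Cost of an expression for counters. -/
def Nx.size : Nx → ℕ
  | .num _ => 1
  | .var _ => 1
  | .add a b => a.size + b.size + 1

/-- Programs. -/
inductive Pr : Type
  | skip
  | cnt (i : ℕ) (e : Nx)
  | asg (x : Ad) (e : Ex)
  | seq (p q : Pr)
  | ifle (a b : Ex) (p q : Pr)
  | wlt (i j : ℕ) (p : Pr)
  | wle (a b : Ex) (p : Pr)

/-- `Run p s t m`: the program `p`, started with memory `s`, halts with memory `t` after `m`
elementary steps. `ifle a b p q` is `if a ≤ b then p else q` for real numbers, `wlt i j p` is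
`while counter i < counter j do p`, `wle a b p` is `while a ≤ b do p` for real numbers. -/
inductive Run : Pr → St → St → ℕ → Prop
  | skip {s : St} : Run .skip s s 1
  | cnt {i : ℕ} {e : Nx} {s : St} : Run (.cnt i e) s (s.setc i (e.val s)) (e.size + 1)
  | asg {x : Ad} {e : Ex} {s : St} : e.Def s → Run (.asg x e) s (s.set x (e.val s)) (e.size + 1)
  | seq {p q : Pr} {s t u : St} {m k : ℕ} : Run p s t m → Run q t u k → Run (.seq p q) s u (m + k)
  | ifT {a b : Ex} {p q : Pr} {s t : St} {m : ℕ} : a.Def s → b.Def s → a.val s ≤ b.val s →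
      Run p s t m → Run (.ifle a b p q) s t (a.size + b.size + 1 + m)
  | ifF {a b : Ex} {p q : Pr} {s t : St} {m : ℕ} : a.Def s → b.Def s → ¬ a.val s ≤ b.val s →
      Run q s t m → Run (.ifle a b p q) s t (a.size + b.size + 1 + m)
  | wltT {i j : ℕ} {p : Pr} {s t u : St} {m k : ℕ} : s.c i < s.c j → Run p s t m →
      Run (.wlt i j p) t u k → Run (.wlt i j p) s u (1 + m + k)
  | wltF {i j : ℕ} {p : Pr} {s : St} : ¬ s.c i < s.c j → Run (.wlt i j p) s s 1
  | wleT {a b : Ex} {p : Pr} {s t u : St} {m k : ℕ} : a.Def s → b.Def s → a.val s ≤ b.val s →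
      Run p s t m → Run (.wle a b p) t u k → Run (.wle a b p) s u (a.size + b.size + 1 + m + k)
  | wleF {a b : Ex} {p : Pr} {s : St} : a.Def s → b.Def s → ¬ a.val s ≤ b.val s →
      Run (.wle a b p) s s (a.size + b.size + 1)

/-- The program halts after at most `k` steps with a memory satisfying `Q`. -/
def Ok (p : Pr) (s : St) (k : ℕ) (Q : St → Prop) : Prop := ∃ t m, Run p s t m ∧ m ≤ k ∧ Q t

/-- `for counter i from 0 to (counter j) - 1 do p`. -/
def forc (i j : ℕ) (p : Pr) : Pr :=
  .seq (.cnt i (.num 0)) (.wlt i j (.seq p (.cnt i (.add (.var i) (.num 1)))))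

theorem Ok.mono {p : Pr} {s : St} {k k' : ℕ} {Q Q' : St → Prop} (h : Ok p s k Q) (hk : k ≤ k')
    (hQ : ∀ t, Q t → Q' t) : Ok p s k' Q' := by
  obtain ⟨t, m, h1, h2, h3⟩ := h
  exact ⟨t, m, h1, h2.trans hk, hQ t h3⟩

theorem Ok.skip {s : St} {k : ℕ} {Q : St → Prop} (hQ : Q s) (hk : 1 ≤ k) : Ok .skip s k Q :=
  ⟨s, 1, .skip, hk, hQ⟩

theorem Ok.cnt {i : ℕ} {e : Nx} {s : St} {k : ℕ} {Q : St → Prop} (hQ : Q (s.setc i (e.val s)))
    (hk : e.size + 1 ≤ k) : Ok (.cnt i e) s k Q :=
  ⟨_, _, .cnt, hk, hQ⟩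

theorem Ok.asg {x : Ad} {e : Ex} {s : St} {k : ℕ} {Q : St → Prop} (hd : e.Def s)
    (hQ : Q (s.set x (e.val s))) (hk : e.size + 1 ≤ k) : Ok (.asg x e) s k Q :=
  ⟨_, _, .asg hd, hk, hQ⟩

theorem Ok.seq {p q : Pr} {s : St} {k : ℕ} {Q : St → Prop} (k₁ k₂ : ℕ)
    (h : Ok p s k₁ (fun t => Ok q t k₂ Q)) (hk : k₁ + k₂ ≤ k) : Ok (.seq p q) s k Q := by
  obtain ⟨t, m, h1, h2, u, l, h3, h4, h5⟩ := h
  exact ⟨u, m + l, .seq h1 h3, by omega, h5⟩

theorem Ok.ifle {a b : Ex} {p q : Pr} {s : St} {k : ℕ} {Q : St → Prop} (l : ℕ)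
    (ha : a.Def s) (hb : b.Def s) (h1 : a.val s ≤ b.val s → Ok p s l Q)
    (h2 : ¬ a.val s ≤ b.val s → Ok q s l Q) (hk : a.size + b.size + 1 + l ≤ k) :
    Ok (.ifle a b p q) s k Q := by
  by_cases h : a.val s ≤ b.val s
  · obtain ⟨t, m, h3, h4, h5⟩ := h1 h
    exact ⟨t, _, .ifT ha hb h h3, by omega, h5⟩
  · obtain ⟨t, m, h3, h4, h5⟩ := h2 h
    exact ⟨t, _, .ifF ha hb h h3, by omega, h5⟩

theorem Ok.wlt {i j : ℕ} {p : Pr} (N K : ℕ) (Inv : ℕ → St → Prop)
    (hstep : ∀ k < N, ∀ t : St, t.c i = k → t.c j = N → Inv k t →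
      Ok p t K (fun u => u.c i = k + 1 ∧ u.c j = N ∧ Inv (k + 1) u)) :
    ∀ (d k : ℕ) (s : St), k + d = N → s.c i = k → s.c j = N → Inv k s →
      Ok (.wlt i j p) s (d * (K + 1) + 1) (fun t => t.c i = N ∧ t.c j = N ∧ Inv N t) := by
  intro d
  induction d with
  | zero =>
    intro k s hk h1 h2 h3
    have : k = N := by omega
    subst this
    exact ⟨s, 1, .wltF (by omega), by omega, h1, h2, h3⟩
  | succ d ih =>
    intro k s hk h1 h2 h3
    obtain ⟨t, m, h4, h5, h6, h7, h8⟩ := hstep k (by omega) s h1 h2 h3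
    obtain ⟨u, l, h9, h10, h11⟩ := ih (k + 1) t (by omega) h6 h7 h8
    refine ⟨u, 1 + m + l, .wltT (by omega) h4 h9, ?_, h11⟩
    have : (d + 1) * (K + 1) + 1 = d * (K + 1) + 1 + (K + 1) := by ring
    omega

/-- The rule for loops with a counter. -/
theorem Ok.forc {i j : ℕ} {p : Pr} {s : St} {k : ℕ} {Q : St → Prop} (N K : ℕ)
    (Inv : ℕ → St → Prop) (hij : i ≠ j) (hj : s.c j = N) (h0 : Inv 0 (s.setc i 0))
    (hstep : ∀ l < N, ∀ t : St, t.c i = l → t.c j = N → Inv l t →
      Ok p t K (fun u => u.c i = l ∧ u.c j = N ∧ Inv (l + 1) (u.setc i (l + 1))))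
    (hQ : ∀ t : St, t.c i = N → t.c j = N → Inv N t → Q t)
    (hk : N * (K + 5) + 3 ≤ k) : Ok (forc i j p) s k Q := by
  have h1 := Ok.wlt (p := .seq p (.cnt i (.add (.var i) (.num 1)))) (i := i) (j := j) N (K + 4)
    Inv (by
      intro l hl t h1 h2 h3
      obtain ⟨u, m, h4, h5, h6, h7, h8⟩ := hstep l hl t h1 h2 h3
      refine ⟨_, _, .seq h4 .cnt, ?_, ?_, ?_, ?_⟩
      · simp only [Nx.size]
        omega
      · simp [St.setc, Nx.val, h6]
      · simp [St.setc, Nx.val, Function.update_of_ne (Ne.symm hij), h7]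
      · simpa [Nx.val, h6] using h8)
    N 0 (s.setc i 0) (by omega) (by simp [St.setc])
    (by simp [St.setc, Function.update_of_ne (Ne.symm hij), hj]) h0
  obtain ⟨t, m, h2, h3, h4, h5, h6⟩ := h1
  refine ⟨t, _, .seq .cnt h2, ?_, hQ t h4 h5 h6⟩
  simp only [Nx.size]
  have : N * (K + 4 + 1) = N * (K + 5) := by ring
  omega

/-- Frame: counters below `T`, and arrays below `T` that are not in `R`, are not changed. -/
def Fr (T : ℕ) (R : Finset ℕ) (s t : St) : Prop :=
  (∀ i < T, t.c i = s.c i) ∧ ∀ a < T, a ∉ R → t.r a = s.r a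

theorem Fr.refl {T : ℕ} {R : Finset ℕ} {s : St} : Fr T R s s := ⟨fun _ _ => rfl, fun _ _ _ => rfl⟩

theorem Fr.trans {T : ℕ} {R : Finset ℕ} {s t u : St} (h1 : Fr T R s t) (h2 : Fr T R t u) :
    Fr T R s u :=
  ⟨fun i hi => (h2.1 i hi).trans (h1.1 i hi), fun a ha hR => (h2.2 a ha hR).trans (h1.2 a ha hR)⟩

theorem Fr.mono {T T' : ℕ} {R R' : Finset ℕ} {s t : St} (h : Fr T R s t) (hT : T' ≤ T)
    (hR : ∀ a < T', a ∈ R → a ∈ R') : Fr T' R' s t :=
  ⟨fun i hi => h.1 i (by omega), fun a ha hR' => h.2 a (by omega) fun h' => hR' (hR a ha h')⟩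

theorem Fr.setc {T : ℕ} {R : Finset ℕ} {s : St} {i v : ℕ} (hi : T ≤ i) : Fr T R s (s.setc i v) :=
  ⟨fun j hj => by simp [St.setc, Function.update_of_ne (show j ≠ i by omega)], fun _ _ _ => rfl⟩

theorem Fr.set {T : ℕ} {R : Finset ℕ} {s : St} {x : Ad} {v : ℝ} (h : T ≤ x.arr ∨ x.arr ∈ R) :
    Fr T R s (s.set x v) := by
  refine ⟨fun j _ => rfl, fun a ha hR => ?_⟩
  have : a ≠ x.arr := by
    rintro rfl
    rcases h with h | h
    · omega
    · exact hR h
  simp [St.set, Function.update_of_ne this]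

@[simp] theorem St.setc_r {s : St} {i v : ℕ} : (s.setc i v).r = s.r := rfl

@[simp] theorem St.set_c {s : St} {x : Ad} {v : ℝ} : (s.set x v).c = s.c := rfl

theorem St.setc_c {s : St} {i v j : ℕ} : (s.setc i v).c j = if j = i then v else s.c j := by
  simp [St.setc, Function.update_apply]

theorem St.set_r {s : St} {x : Ad} {v : ℝ} {a i j : ℕ} : (s.set x v).r a i j =
    if a = x.arr ∧ i = s.c x.row ∧ j = s.c x.col then v else s.r a i j := by
  by_cases ha : a = x.arr
  · subst ha
    by_cases hi : i = s.c x.row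
    · subst hi
      by_cases hj : j = s.c x.col
      · subst hj
        simp [St.set]
      · simp [St.set, hj]
    · simp [St.set, hi]
  · simp [St.set, ha]

theorem St.set_r_ne {s : St} {x : Ad} {v : ℝ} {a : ℕ} (h : a ≠ x.arr) :
    (s.set x v).r a = s.r a := by
  simp [St.set, Function.update_of_ne h]

/-- The machine is deterministic. -/
theorem Run.det {p : Pr} {s t : St} {m : ℕ} (h : Run p s t m) :
    ∀ {t' : St} {m' : ℕ}, Run p s t' m' → t = t' ∧ m = m' := by
  induction h with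
  | skip => intro t' m' h; cases h; exact ⟨rfl, rfl⟩
  | cnt => intro t' m' h; cases h; exact ⟨rfl, rfl⟩
  | asg _ => intro t' m' h; cases h; exact ⟨rfl, rfl⟩
  | seq _ _ ih1 ih2 =>
    intro t' m' h
    cases h with
    | seq h1 h2 =>
      obtain ⟨rfl, rfl⟩ := ih1 h1
      obtain ⟨rfl, rfl⟩ := ih2 h2
      exact ⟨rfl, rfl⟩
  | ifT _ _ hc _ ih =>
    intro t' m' h
    cases h with
    | ifT _ _ _ h1 => obtain ⟨rfl, rfl⟩ := ih h1; exact ⟨rfl, rfl⟩
    | ifF _ _ hc' _ => exact absurd hc hc'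
  | ifF _ _ hc _ ih =>
    intro t' m' h
    cases h with
    | ifT _ _ hc' _ => exact absurd hc' hc
    | ifF _ _ _ h1 => obtain ⟨rfl, rfl⟩ := ih h1; exact ⟨rfl, rfl⟩
  | wltT hc _ _ ih1 ih2 =>
    intro t' m' h
    cases h with
    | wltT _ h1 h2 =>
      obtain ⟨rfl, rfl⟩ := ih1 h1
      obtain ⟨rfl, rfl⟩ := ih2 h2
      exact ⟨rfl, rfl⟩
    | wltF hc' => exact absurd hc hc'
  | wltF hc =>
    intro t' m' h
    cases h with
    | wltT hc' _ _ => exact absurd hc' hc
    | wltF _ => exact ⟨rfl, rfl⟩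
  | wleT _ _ hc _ _ ih1 ih2 =>
    intro t' m' h
    cases h with
    | wleT _ _ _ h1 h2 =>
      obtain ⟨rfl, rfl⟩ := ih1 h1
      obtain ⟨rfl, rfl⟩ := ih2 h2
      exact ⟨rfl, rfl⟩
    | wleF _ _ hc' => exact absurd hc hc'
  | wleF _ _ hc =>
    intro t' m' h
    cases h with
    | wleT _ _ hc' _ _ => exact absurd hc' hc
    | wleF _ _ _ => exact ⟨rfl, rfl⟩

end Pool.Agent.W217.RS
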