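import Pool.Agent.W217.RS.Defs

set_option autoImplicit false

/-!
# The program

Counters: 0 = `n`, 1 = always zero, 2 = the level `L`, 3 = `w`, the number of bits of a digit.

Arrays (numbers are stored at the indices 0, 0): 0 = the matrix `A`, 1 = the right hand side `b`
(at the indices `i`, 0), 2 = `ε`, 3 = the output `x` (at `i`, 0), 4 = the scaling factor `M`,
5 = `A / M`, 6 = the matrix of the integers `⌊β A / M⌋`, 7 = the current approximation (integers) of
`β` times the inverse, 8 = `β`, 9 = `2 ^ w`, the base of the digits, 10, 11 = the factors of a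
product, 12 = the product, 13 = matrix to be rounded, 19 = rounded matrix, 14 = `1` when the result
has been accepted, 15 = `n` as a real number, 16 = `2 ^ L`, 17 = bound for the error,
18 = sum of the absolute values of the approximate inverse, 20 = `H`, the bound for the integers.
-/

noncomputable section

namespace Pool.Agent.W217.RS

instance : Add Ex := ⟨.op .add⟩
instance : Sub Ex := ⟨.op .sub⟩
instance : Mul Ex := ⟨.op .mul⟩
instance : Div Ex := ⟨.op .div⟩

/-- Address of a single number: the indices 0, 0 (counter 1 is always zero). -/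
def sc (a : ℕ) : Ad := ⟨a, 1, 1⟩

/-- The number at the indices 0, 0 of the array `a`. -/
def R (a : ℕ) : Ex := .rd ⟨a, 1, 1⟩

/-- The entry of the array `a` with the indices in the counters `i` and `j`. -/
def R2 (a i j : ℕ) : Ex := .rd ⟨a, i, j⟩

/-- Array 90 contains `S`, array 91 contains `W`: computes `⌊S / W⌋` (array 92) and the remainder
`S - ⌊S / W⌋ * W` (array 90) by bisection, if `0 ≤ S < 2 ^ w * W`. -/
def pFloor : Pr :=
  .seq (.asg (sc 92) (.num 0)) <| .seq (.asg (sc 93) (R 9)) <|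
  forc 90 3 (
    .seq (.asg (sc 93) (R 93 / .num 2)) <|
    .ifle (R 93 * R 91) (R 90)
      (.seq (.asg (sc 90) (R 90 - R 93 * R 91)) (.asg (sc 92) (R 92 + R 93))) .skip)

/-- Rounds the number in 94 to an integer between `-H` and `H` (array 95). -/
def pRnd : Pr :=
  .seq (.asg (sc 90) (R 94 + R 20)) <|
  .seq (.ifle (.num 0) (R 90) .skip (.asg (sc 90) (.num 0))) <|
  .seq (.ifle (R 90) (R 20 + R 20) .skip (.asg (sc 90) (R 20 + R 20))) <|
  .seq (.asg (sc 91) (.num 1)) <| .seq pFloor <| .asg (sc 95) (R 92 - R 20)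

/-- Array 19 becomes the matrix of the rounded entries of array 13. -/
def pRM : Pr :=
  forc 80 0 (forc 81 0 (
    .seq (.asg (sc 94) (R2 13 80 81)) <| .seq pRnd <| .asg ⟨19, 80, 81⟩ (R 95)))

/-- The entries of the array `d` become the values of `e`, for counters 80, 81 `< n`. -/
def pMap (d : ℕ) (e : Ex) : Pr := forc 80 0 (forc 81 0 (.asg ⟨d, 80, 81⟩ e))

/-- The diagonal entries of the array `d` become the values of `e`, for counter 80 `< n`. -/
def pDiag (d : ℕ) (e : Ex) : Pr := forc 80 0 (.asg ⟨d, 80, 80⟩ e)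

/-- Array 84 becomes the sum of the absolute values of the entries of the array `a`. -/
def pSumAbs (a : ℕ) : Pr :=
  .seq (.asg (sc 84) (.num 0)) <|
  forc 80 0 (forc 81 0 (.ifle (.num 0) (R2 a 80 81)
    (.asg (sc 84) (R 84 + R2 a 80 81)) (.asg (sc 84) (R 84 - R2 a 80 81))))

/-- Array 82 becomes the packed rows of array 11. -/
def pPack : Pr :=
  forc 80 0 (.seq (.asg ⟨82, 80, 1⟩ (.num 0)) <|
    forc 81 0 (.asg ⟨82, 80, 1⟩ (R2 82 80 1 * R 9 + R2 11 80 81)))

/-- Array 83 becomes the packed vector with all entries `2 ^ w / 2`, array 85 becomes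
`(2 ^ w) ^ n`. -/
def pOff : Pr :=
  .seq (.asg (sc 83) (.num 0)) <| .seq (.asg (sc 85) (.num 1)) <|
  forc 80 0 (
    .seq (.asg (sc 83) (R 83 * R 9 + R 9 / .num 2)) <| .asg (sc 85) (R 85 * R 9))

/-- Array 90 becomes the packed row (counter 80) of the product of array 10 and array 11, plus
the packed vector in 83. -/
def pRow : Pr :=
  .seq (.asg (sc 90) (R 83)) <| forc 81 0 (.asg (sc 90) (R 90 + R2 10 80 81 * R2 82 81 1))

/-- Unpacks the number in 90: row (counter 80) of array 12. -/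
def pDig : Pr :=
  .seq (.asg (sc 91) (R 85)) <|
  forc 81 0 (.seq (.asg (sc 91) (R 91 / R 9)) <| .seq pFloor <|
    .asg ⟨12, 80, 81⟩ (R 92 - R 9 / .num 2))

/-- Array 12 becomes the product of the matrices in arrays 10 and 11. -/
def pProd : Pr := .seq pPack <| .seq pOff <| forc 80 0 (.seq pRow pDig)

/-- One step of the Newton iteration, rounded. -/
def pNewt : Pr :=
  .seq (pMap 10 (R2 6 80 81)) <| .seq (pMap 11 (R2 7 80 81)) <| .seq pProd <|
  .seq (pMap 11 (.num 0 - R2 12 80 81)) <|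
  .seq (pDiag 11 (R2 11 80 80 + .num 2 * (R 8 * R 8))) <|
  .seq (pMap 10 (R2 7 80 81)) <| .seq pProd <|
  .seq (pMap 13 (R2 12 80 81 / (R 8 * R 8))) <| .seq pRM <| pMap 7 (R2 19 80 81)

/-- `w` steps of the Newton iteration. -/
def pIter : Pr := forc 70 3 pNewt

/-- Check of the result. -/
def pCheck : Pr :=
  .seq (pMap 10 (R2 6 80 81)) <| .seq (pMap 11 (R2 7 80 81)) <| .seq pProd <|
  .seq (pDiag 12 (R2 12 80 80 - R 8 * R 8)) <|
  .seq (pSumAbs 12) <| .seq (.asg (sc 17) (R 84 / (R 8 * R 8))) <|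
  .seq (pSumAbs 7) <| .seq (.asg (sc 18) (R 84 / R 8)) <|
  .seq (.asg (sc 17) (R 17 + R 15 / R 8 * R 18)) <|
  .ifle (R 17) (.num 1 / .num 2) (.ifle (R 17) (R 2)
    (.ifle (R 17 * R 18) (R 2) (.asg (sc 14) (.num 1)) .skip) .skip) .skip

/-- The numbers `β = 2 ^ (8 L)`, `H = 2 ^ (20 L)`, `2 ^ (128 L)` and `w = 128 L` of the level
`L`. -/
def pPar : Pr :=
  .seq (.asg (sc 8) (R 16 * R 16)) <| .seq (.asg (sc 8) (R 8 * R 8)) <|
  .seq (.asg (sc 20) (R 8)) <| .seq (.asg (sc 8) (R 8 * R 8)) <|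
  .seq (.asg (sc 9) (R 8 * R 8)) <| .seq (.asg (sc 20) (R 20 * R 9)) <|
  .seq (.asg (sc 9) (R 9 * R 9)) <| .seq (.asg (sc 9) (R 9 * R 9)) <|
  .seq (.asg (sc 9) (R 9 * R 9)) <|
  .seq (.cnt 3 (.add (.var 2) (.var 2))) <| .seq (.cnt 3 (.add (.var 3) (.var 3))) <|
  .seq (.cnt 3 (.add (.var 3) (.var 3))) <| .seq (.cnt 3 (.add (.var 3) (.var 3))) <|
  .seq (.cnt 3 (.add (.var 3) (.var 3))) <| .seq (.cnt 3 (.add (.var 3) (.var 3))) <|
  .cnt 3 (.add (.var 3) (.var 3))

/-- The rounded matrix and the start of the iteration. -/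
def pStart : Pr :=
  .seq (pMap 13 (R2 5 80 81 * R 8)) <| .seq pRM <| .seq (pMap 6 (R2 19 80 81)) <|
  pMap 7 (R2 19 81 80)

/-- The computations of the level `L`. -/
def pLevel : Pr :=
  .seq pPar <| .seq pStart <| .seq pIter <| .seq pCheck <|
  .seq (.cnt 2 (.add (.var 2) (.num 1))) <| .asg (sc 16) (R 16 * .num 2)

/-- Scaling; the first level. -/
def pInit : Pr :=
  .seq (pSumAbs 0) <| .seq (.asg (sc 4) (.num 2 * R 84)) <| .seq (pMap 5 (R2 0 80 81 / R 4)) <|
  .seq (.asg (sc 15) (.num 0)) <| .seq (forc 80 0 (.asg (sc 15) (R 15 + .num 1))) <|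
  .seq (.cnt 2 (.num 1)) <| .seq (.asg (sc 16) (.num 2)) <|
  .seq (.wle (R 16) (R 15) (
    .seq (.cnt 2 (.add (.var 2) (.num 1))) <| .asg (sc 16) (R 16 * .num 2))) <|
  .asg (sc 14) (.num 0)

/-- Output. -/
def pOut : Pr :=
  forc 80 0 (.seq (.asg ⟨3, 80, 1⟩ (.num 0)) <|
    .seq (forc 81 0 (.asg ⟨3, 80, 1⟩ (R2 3 80 1 + R2 7 80 81 * R2 1 81 1))) <|
    .asg ⟨3, 80, 1⟩ (R2 3 80 1 / (R 8 * R 4)))

/-- The program: it solves linear systems `A x = b`. -/
def pMain : Pr := .seq pInit <| .seq (.wle (R 14) (.num 0) pLevel) pOut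

end Pool.Agent.W217.RS
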