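import Pool.Agent.W217.RS.Prog

set_option autoImplicit false

/-!
# The steps of the proof
-/

open scoped BigOperators

noncomputable section

namespace Pool.Agent.W217.RS

/-- Rounding to an integer, with bound `H`. -/
def rnd (H y : ℝ) : ℝ := (⌊max 0 (min (y + H) (2 * H))⌋₊ : ℝ) - H

/-- Product of `n × n` matrices, given as functions on `ℕ × ℕ`. -/
def mulN (n : ℕ) (f g : ℕ → ℕ → ℝ) (i j : ℕ) : ℝ := ∑ k ∈ Finset.range n, f i k * g k j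

/-- The entries with indices below `n` are integers of absolute value at most `H`. -/
def IntM (n : ℕ) (H : ℝ) (f : ℕ → ℕ → ℝ) : Prop :=
  ∀ i < n, ∀ j < n, (∃ z : ℤ, f i j = z) ∧ |f i j| ≤ H

/-- Common assumptions on the memory: counter 0 is `n`, counter 1 is zero, counter 3 is `w`, and
the base of the digits is `2 ^ w`. -/
def Std (n w : ℕ) (s : St) : Prop := s.c 0 = n ∧ s.c 1 = 0 ∧ s.c 3 = w ∧ s.r 9 0 0 = 2 ^ w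

/-- Elementwise evaluation. -/
def MAPR : Prop := ∀ (s : St) (n d : ℕ) (e : Ex) (F : ℕ → ℕ → ℝ), s.c 0 = n →
  (∀ i < n, ∀ j < n, ∀ u : St, Fr 80 {d} s u → (∀ a, a ≠ d → u.r a = s.r a) →
    u.c 80 = i → u.c 81 = j → u.r d i j = s.r d i j → e.Def u ∧ e.val u = F i j) →
  Ok (pMap d e) s ((e.size + 20) * (n + 1) ^ 2) (fun t => Fr 80 {d} s t ∧
    (∀ a, a ≠ d → t.r a = s.r a) ∧ ∀ i < n, ∀ j < n, t.r d i j = F i j)

/-- Evaluation on the diagonal. -/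
def DIAG : Prop := ∀ (s : St) (n d : ℕ) (e : Ex) (F : ℕ → ℝ), s.c 0 = n →
  (∀ i < n, ∀ u : St, Fr 80 {d} s u → (∀ a, a ≠ d → u.r a = s.r a) →
    u.c 80 = i → u.r d i i = s.r d i i → e.Def u ∧ e.val u = F i) →
  Ok (pDiag d e) s ((e.size + 20) * (n + 1)) (fun t => Fr 80 {d} s t ∧
    (∀ a, a ≠ d → t.r a = s.r a) ∧ (∀ i < n, t.r d i i = F i) ∧
    ∀ i < n, ∀ j < n, i ≠ j → t.r d i j = s.r d i j)

/-- Sum of absolute values. -/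
def SUMA : Prop := ∀ (s : St) (n a : ℕ), s.c 0 = n → s.c 1 = 0 → a < 80 →
  Ok (pSumAbs a) s (40 * (n + 1) ^ 2) (fun t => Fr 80 ∅ s t ∧
    t.r 84 0 0 = ∑ i ∈ Finset.range n, ∑ j ∈ Finset.range n, |s.r a i j|)

/-- Bisection. -/
def FLOOR : Prop := ∀ (s : St) (n w : ℕ) (x W : ℝ), Std n w s → s.r 90 0 0 = x → s.r 91 0 0 = W →
  0 < W → 0 ≤ x → x < 2 ^ w * W →
  Ok pFloor s (40 * (w + 1)) (fun t => Fr 90 ∅ s t ∧ t.r 91 0 0 = W ∧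
    t.r 92 0 0 = (⌊x / W⌋₊ : ℝ) ∧ t.r 90 0 0 = x - (⌊x / W⌋₊ : ℝ) * W)

/-- Rounding of a number. -/
def RND : Prop := ∀ (s : St) (n w : ℕ) (H : ℝ), Std n w s → s.r 20 0 0 = H → 0 ≤ H →
  2 * H < 2 ^ w →
  Ok pRnd s (80 * (w + 1)) (fun t => Fr 90 ∅ s t ∧ t.r 95 0 0 = rnd H (s.r 94 0 0))

/-- Rounding of a matrix. -/
def RNDM : Prop := ∀ (s : St) (n w : ℕ) (H : ℝ), Std n w s → s.r 20 0 0 = H → 0 ≤ H →
  2 * H < 2 ^ w →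
  Ok pRM s (120 * (n + 1) ^ 2 * (w + 1)) (fun t => Fr 80 {19} s t ∧
    ∀ i < n, ∀ j < n, t.r 19 i j = rnd H (s.r 13 i j))

/-- Packing of the rows of array 11. -/
def PACK : Prop := ∀ (s : St) (n w : ℕ), Std n w s →
  Ok pPack s (40 * (n + 1) ^ 2) (fun t => Fr 80 ∅ s t ∧
    ∀ k < n, t.r 82 k 0 = ∑ j ∈ Finset.range n, s.r 11 k j * ((2 : ℝ) ^ w) ^ (n - 1 - j))

/-- The packed constant vector and `(2 ^ w) ^ n`. -/
def OFFS : Prop := ∀ (s : St) (n w : ℕ), Std n w s →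
  Ok pOff s (40 * (n + 1)) (fun t => Fr 80 ∅ s t ∧ t.r 82 = s.r 82 ∧
    t.r 83 0 0 = ∑ j ∈ Finset.range n, (2 : ℝ) ^ w / 2 * ((2 : ℝ) ^ w) ^ (n - 1 - j) ∧
    t.r 85 0 0 = ((2 : ℝ) ^ w) ^ n)

/-- A packed row of the product. -/
def ROW : Prop := ∀ (s : St) (n w : ℕ), Std n w s →
  Ok pRow s (20 * (n + 1)) (fun t => (∀ i < 81, t.c i = s.c i) ∧ (∀ a < 90, t.r a = s.r a) ∧
    t.r 90 0 0 = s.r 83 0 0 + ∑ k ∈ Finset.range n, s.r 10 (s.c 80) k * s.r 82 k 0)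

/-- Unpacking of digits. -/
def DIG : Prop := ∀ (s : St) (n w i : ℕ) (d : ℕ → ℕ), Std n w s → 1 ≤ w → s.c 80 = i →
  (∀ j < n, d j < 2 ^ w) → s.r 85 0 0 = ((2 : ℝ) ^ w) ^ n →
  s.r 90 0 0 = ∑ j ∈ Finset.range n, (d j : ℝ) * ((2 : ℝ) ^ w) ^ (n - 1 - j) →
  Ok pDig s (80 * (n + 1) * (w + 1)) (fun t => (∀ l < 81, t.c l = s.c l) ∧
    (∀ a < 90, a ≠ 12 → t.r a = s.r a) ∧ (∀ l, l ≠ i → t.r 12 l = s.r 12 l) ∧
    ∀ j < n, t.r 12 i j = (d j : ℝ) - 2 ^ w / 2)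

/-- The product of two integer matrices. -/
def PROD : Prop := ∀ (s : St) (n w : ℕ) (H : ℝ), Std n w s → 1 ≤ w → IntM n H (s.r 10) →
  IntM n H (s.r 11) → 4 * n * H ^ 2 ≤ 2 ^ w →
  Ok pProd s (300 * (n + 1) ^ 2 * (w + 1)) (fun t => Fr 80 {12} s t ∧
    ∀ i < n, ∀ j < n, t.r 12 i j = mulN n (s.r 10) (s.r 11) i j)

/-- One step of the Newton iteration. -/
def nwt (n : ℕ) (β H : ℝ) (a x : ℕ → ℕ → ℝ) (i j : ℕ) : ℝ :=
  rnd H (mulN n x (fun k l => (if k = l then 2 * β ^ 2 else 0) - mulN n a x k l) i j / β ^ 2)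

/-- The Newton iteration. -/
def xseq (n : ℕ) (β H : ℝ) (a : ℕ → ℕ → ℝ) : ℕ → ℕ → ℕ → ℝ
  | 0 => fun i j => a j i
  | k + 1 => nwt n β H a (xseq n β H a k)

/-- The arrays that are changed in the levels. -/
def chg : Finset ℕ := {6, 7, 8, 9, 10, 11, 12, 13, 14, 16, 17, 18, 19, 20}

/-- The size conditions on `β`, `H` and the base `2 ^ w`. -/
def Siz (n w : ℕ) (β H : ℝ) : Prop :=
  (∃ b : ℕ, β = b) ∧ (∃ h : ℕ, H = h) ∧ 1 ≤ β ∧ β ≤ H ∧ 1 ≤ w ∧ 2 * H < 2 ^ w ∧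
    4 * n * (2 * β ^ 2 + n * β * H + H) ^ 2 ≤ 2 ^ w

/-- A step of the iteration. -/
def NEWT : Prop := ∀ (s : St) (n w : ℕ) (β H : ℝ), Std n w s → s.r 8 0 0 = β → s.r 20 0 0 = H →
  Siz n w β H → IntM n β (s.r 6) → IntM n H (s.r 7) →
  Ok pNewt s (1500 * (n + 1) ^ 2 * (w + 1)) (fun t => Fr 80 {7, 10, 11, 12, 13, 19} s t ∧
    ∀ i < n, ∀ j < n, t.r 7 i j = nwt n β H (s.r 6) (s.r 7) i j)

/-- The iteration. -/
def ITER : Prop := ∀ (s : St) (n w : ℕ) (β H : ℝ), Std n w s → s.r 8 0 0 = β → s.r 20 0 0 = H →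
  Siz n w β H → IntM n β (s.r 6) → (∀ i < n, ∀ j < n, s.r 7 i j = s.r 6 j i) →
  Ok pIter s (1600 * (n + 1) ^ 2 * (w + 1) ^ 2) (fun t => Fr 70 {7, 10, 11, 12, 13, 19} s t ∧
    ∀ i < n, ∀ j < n, t.r 7 i j = xseq n β H (s.r 6) w i j)

/-- The residual: the sum of the absolute values of the entries of `a x / β ^ 2 - 1`. -/
def fres (n : ℕ) (β : ℝ) (a x : ℕ → ℕ → ℝ) : ℝ :=
  (∑ i ∈ Finset.range n, ∑ j ∈ Finset.range n,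
    |mulN n a x i j - if i = j then β ^ 2 else 0|) / β ^ 2

/-- The sum of the absolute values of the entries of `x / β`. -/
def xsum (n : ℕ) (β : ℝ) (x : ℕ → ℕ → ℝ) : ℝ :=
  (∑ i ∈ Finset.range n, ∑ j ∈ Finset.range n, |x i j|) / β

/-- The bound for the error. -/
def etot (n : ℕ) (β : ℝ) (a x : ℕ → ℕ → ℝ) : ℝ := fres n β a x + n / β * xsum n β x

/-- The result is accepted. -/
def Acc (n : ℕ) (β : ℝ) (a x : ℕ → ℕ → ℝ) (ε : ℝ) : Prop :=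
  etot n β a x ≤ 1 / 2 ∧ etot n β a x ≤ ε ∧ etot n β a x * xsum n β x ≤ ε

open Classical in
/-- The check of the result. -/
def CHECK : Prop := ∀ (s : St) (n w : ℕ) (β H ε : ℝ), Std n w s → s.r 8 0 0 = β → Siz n w β H →
  s.r 2 0 0 = ε → s.r 15 0 0 = n → IntM n β (s.r 6) → IntM n H (s.r 7) →
  Ok pCheck s (600 * (n + 1) ^ 2 * (w + 1)) (fun t => Fr 80 {10, 11, 12, 14, 17, 18} s t ∧
    t.r 14 0 0 = if Acc n β (s.r 6) (s.r 7) ε then 1 else s.r 14 0 0)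

/-- The numbers of the level `L`. -/
def PAR : Prop := ∀ (s : St) (L : ℕ), s.c 1 = 0 → s.c 2 = L → s.r 16 0 0 = 2 ^ L →
  Ok pPar s 100 (fun t => (∀ i, i ≠ 3 → t.c i = s.c i) ∧ t.c 3 = 128 * L ∧
    (∀ a, a ≠ 8 → a ≠ 9 → a ≠ 20 → t.r a = s.r a) ∧ t.r 8 0 0 = 2 ^ (8 * L) ∧
    t.r 20 0 0 = 2 ^ (20 * L) ∧ t.r 9 0 0 = 2 ^ (128 * L))

/-- The rounded matrix. -/
def atil (β H : ℝ) (A : ℕ → ℕ → ℝ) (i j : ℕ) : ℝ := rnd H (A i j * β)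

/-- The start of the iteration. -/
def START : Prop := ∀ (s : St) (n w : ℕ) (β H : ℝ), Std n w s → s.r 8 0 0 = β → s.r 20 0 0 = H →
  0 ≤ H → 2 * H < 2 ^ w →
  Ok pStart s (250 * (n + 1) ^ 2 * (w + 1)) (fun t => Fr 80 {6, 7, 13, 19} s t ∧
    (∀ i < n, ∀ j < n, t.r 6 i j = atil β H (s.r 5) i j) ∧
    ∀ i < n, ∀ j < n, t.r 7 i j = t.r 6 j i)

/-- The result of the level `L`. -/
def xlev (n L : ℕ) (A : ℕ → ℕ → ℝ) : ℕ → ℕ → ℝ :=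
  xseq n (2 ^ (8 * L)) (2 ^ (20 * L)) (atil (2 ^ (8 * L)) (2 ^ (20 * L)) A) (128 * L)

/-- The result of the level `L` is accepted. -/
def AccL (n L : ℕ) (A : ℕ → ℕ → ℝ) (ε : ℝ) : Prop :=
  Acc n (2 ^ (8 * L)) (atil (2 ^ (8 * L)) (2 ^ (20 * L)) A) (xlev n L A) ε

open Classical in
/-- The computations of the level `L`. -/
def LEVEL : Prop := ∀ (s : St) (n L : ℕ) (ε : ℝ), s.c 0 = n → s.c 1 = 0 → s.c 2 = L → 1 ≤ n →
  1 ≤ L → n ≤ 2 ^ L → s.r 16 0 0 = 2 ^ L → s.r 15 0 0 = n → s.r 2 0 0 = ε →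
  (∀ i < n, ∀ j < n, |s.r 5 i j| ≤ 1 / 2) →
  Ok pLevel s (10 ^ 8 * (n + 1) ^ 2 * L ^ 2) (fun t => (∀ i < 2, t.c i = s.c i) ∧
    t.c 2 = L + 1 ∧ (∀ a < 70, a ∉ chg → t.r a = s.r a) ∧ t.r 16 0 0 = 2 ^ (L + 1) ∧
    t.r 8 0 0 = 2 ^ (8 * L) ∧ (∀ i < n, ∀ j < n, t.r 7 i j = xlev n L (s.r 5) i j) ∧
    t.r 14 0 0 = if AccL n L (s.r 5) ε then 1 else s.r 14 0 0)

/-- The sum of the absolute values of the entries. -/
def asum (n : ℕ) (A : ℕ → ℕ → ℝ) : ℝ := ∑ i ∈ Finset.range n, ∑ j ∈ Finset.range n, |A i j|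

/-- The scaled matrix. -/
def scl (n : ℕ) (A : ℕ → ℕ → ℝ) (i j : ℕ) : ℝ := A i j / (2 * asum n A)

/-- Scaling; the first level. -/
def INIT : Prop := ∀ (s : St) (n : ℕ), s.c 0 = n → s.c 1 = 0 → 1 ≤ n → 0 < asum n (s.r 0) →
  Ok pInit s (400 * (n + 1) ^ 2) (fun t => (∀ i < 2, t.c i = s.c i) ∧
    (∀ a < 70, a ∉ ({4, 5, 14, 15, 16} : Finset ℕ) → t.r a = s.r a) ∧
    t.r 4 0 0 = 2 * asum n (s.r 0) ∧ (∀ i < n, ∀ j < n, t.r 5 i j = scl n (s.r 0) i j) ∧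
    t.r 14 0 0 = 0 ∧ t.r 15 0 0 = n ∧
    ∃ L : ℕ, t.c 2 = L ∧ 1 ≤ L ∧ t.r 16 0 0 = 2 ^ L ∧ n < 2 ^ L ∧ 2 ^ L ≤ 2 * n)

/-- Output. -/
def OUT : Prop := ∀ (s : St) (n : ℕ), s.c 0 = n → s.c 1 = 0 → s.r 8 0 0 ≠ 0 → s.r 4 0 0 ≠ 0 →
  Ok pOut s (60 * (n + 1) ^ 2) (fun t => ∀ i < n, t.r 3 i 0 =
    (∑ j ∈ Finset.range n, s.r 7 i j * s.r 1 j 0) / (s.r 8 0 0 * s.r 4 0 0))

/-- The machine part of the proof. -/
def MACH : Prop := ∀ (s : St) (n L₁ : ℕ) (ε : ℝ), s.c 0 = n → s.c 1 = 0 → 1 ≤ n →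
  0 < asum n (s.r 0) → s.r 2 0 0 = ε → (∀ L, L₁ ≤ L → AccL n L (scl n (s.r 0)) ε) → 1 ≤ L₁ →
  2 * n ≤ 2 ^ L₁ →
  Ok pMain s (10 ^ 9 * (n + 1) ^ 2 * L₁ ^ 3) (fun t => ∃ L : ℕ, 1 ≤ L ∧
    AccL n L (scl n (s.r 0)) ε ∧ ∀ i < n, t.r 3 i 0 =
      (∑ j ∈ Finset.range n, xlev n L (scl n (s.r 0)) i j * s.r 1 j 0) /
        (2 ^ (8 * L) * (2 * asum n (s.r 0))))

/-- The memory at the beginning: `n` in counter 0, the matrix in array 0, the right hand side in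
array 1, the accuracy in array 2, and zero everywhere else. -/
def inp {n : ℕ} (A : Matrix (Fin n) (Fin n) ℝ) (b : Fin n → ℝ) (ε : ℝ) : St where
  c := fun i => if i = 0 then n else 0
  r := fun a i j =>
    if a = 0 then (if h : i < n ∧ j < n then A ⟨i, h.1⟩ ⟨j, h.2⟩ else 0)
    else if a = 1 then (if h : i < n ∧ j = 0 then b ⟨i, h.1⟩ else 0)
    else if a = 2 then (if i = 0 ∧ j = 0 then ε else 0)
    else 0

/-- The output: the numbers `i, 0` of array 3. -/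
def out (n : ℕ) (t : St) : Fin n → ℝ := fun i => t.r 3 i 0

/-- The Euclidean norm. -/
def nrm {n : ℕ} (v : Fin n → ℝ) : ℝ := Real.sqrt (∑ i, v i ^ 2)

/-- A function on `ℕ × ℕ` as a matrix. -/
def toM (n : ℕ) (f : ℕ → ℕ → ℝ) : Matrix (Fin n) (Fin n) ℝ := fun i j => f i j

/-- `‖A v‖ ≥ σ ‖v‖` for all `v`. -/
def Low {n : ℕ} (A : Matrix (Fin n) (Fin n) ℝ) (σ : ℝ) : Prop := ∀ v, σ * nrm v ≤ nrm (A.mulVec v)

/-- Convergence: the result is accepted at all levels that are not too small. -/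
def CONV : Prop := ∀ (n L : ℕ) (A : ℕ → ℕ → ℝ) (ε σ : ℝ), 1 ≤ n → 1 ≤ L → 0 < σ → σ ≤ 1 →
  0 < ε → ε < 1 → asum n A ≤ 1 / 2 → Low (toM n A) σ → 100 * n / (σ * ε) ≤ 2 ^ L → AccL n L A ε

/-- Soundness: the accepted results are accurate. -/
def SOUND : Prop := ∀ (n : ℕ) (β ε : ℝ) (A a x : ℕ → ℕ → ℝ), 1 ≤ n → 1 ≤ β → 0 < ε →
  asum n A ≤ 1 / 2 → (∀ i < n, ∀ j < n, |A i j - a i j / β| ≤ 1 / β) → Acc n β a x ε →
  ∀ b : Fin n → ℝ,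
    nrm ((toM n A).mulVec ((toM n fun i j => x i j / β).mulVec b) - b) ≤ ε * nrm b ∧
    ∀ y : Fin n → ℝ, (toM n A).mulVec y = b →
      nrm ((toM n fun i j => x i j / β).mulVec b - y) ≤ ε * nrm y

/-- The matrix `a` is close to `β A`. -/
def ATIL : Prop := ∀ (n L : ℕ) (A : ℕ → ℕ → ℝ), 1 ≤ L → (∀ i < n, ∀ j < n, |A i j| ≤ 1 / 2) →
  IntM n (2 ^ (8 * L)) (atil (2 ^ (8 * L)) (2 ^ (20 * L)) A) ∧
  ∀ i < n, ∀ j < n,
    |A i j - atil (2 ^ (8 * L)) (2 ^ (20 * L)) A i j / 2 ^ (8 * L)| ≤ 1 / 2 ^ (8 * L)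

/-- The size conditions hold. -/
def SIZ : Prop := ∀ n L : ℕ, 1 ≤ L → n ≤ 2 ^ L → Siz n (128 * L) (2 ^ (8 * L)) (2 ^ (20 * L))

/-- The main theorem on the program: for all invertible matrices, with `‖A v‖ ≥ σ ‖v‖`. -/
def SOLVE : Prop := ∃ C : ℕ, ∀ (n : ℕ) (A : Matrix (Fin n) (Fin n) ℝ) (b : Fin n → ℝ) (ε σ : ℝ),
  1 ≤ n → 0 < ε → ε < 1 → 0 < σ → Low A σ → ∃ (t : St) (m : ℕ), Run pMain (inp A b ε) t m ∧
    (m : ℝ) ≤ C * n ^ 2 * (1 + Real.log (n * (1 + (∑ i, ∑ j, |A i j|) / σ) / ε)) ^ 3 ∧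
    nrm (A.mulVec (out n t) - b) ≤ ε * nrm b ∧ nrm (out n t - A⁻¹.mulVec b) ≤ ε * nrm (A⁻¹.mulVec b)

/-- Random matrices with independent standard Gaussian entries. -/
def gauss (n : ℕ) : MeasureTheory.Measure (Fin n → Fin n → ℝ) :=
  MeasureTheory.Measure.pi fun _ =>
    MeasureTheory.Measure.pi fun _ => ProbabilityTheory.gaussianReal 0 1

/-- The good event: `A` is invertible, the entries of `A` and of its inverse are small. -/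
def Good (n : ℕ) : Set (Fin n → Fin n → ℝ) :=
  {A | (Matrix.of A).det ≠ 0 ∧ (∀ i j, |A i j| ≤ (n : ℝ) ^ 2) ∧
    ∀ i j, |(Matrix.of A)⁻¹ i j| ≤ (n : ℝ) ^ 3}

/-- Anti-concentration of a linear form. -/
def ANTI : Prop := ∀ (n : ℕ) (c : Fin n → ℝ) (j : Fin n) (τ : ℝ), c j ≠ 0 → 0 ≤ τ →
  (MeasureTheory.Measure.pi fun _ : Fin n => ProbabilityTheory.gaussianReal 0 1)
    {v : Fin n → ℝ | |∑ k, v k * c k| ≤ τ * |c j|} ≤ ENNReal.ofReal τ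

/-- Gaussian matrices are invertible. -/
def GDET : Prop := ∀ n : ℕ, gauss n {A | (Matrix.of A).det = 0} = 0

/-- The entries of the inverse. -/
def GINV : Prop := ∀ (n : ℕ) (i j : Fin n) (τ : ℝ), 0 ≤ τ →
  gauss n {A | (Matrix.of A).adjugate j i ≠ 0 ∧
    |(Matrix.of A).det| ≤ τ * |(Matrix.of A).adjugate j i|} ≤ ENNReal.ofReal τ

/-- The good event has probability tending to one. -/
def GOOD : Prop := (∀ n, MeasurableSet (Good n)) ∧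
  Filter.Tendsto (fun n => gauss n (Good n)) Filter.atTop (nhds 1)

/-- Condition numbers. -/
def LOWI : Prop := ∀ (n : ℕ) (A : Matrix (Fin n) (Fin n) ℝ) (K : ℝ), A.det ≠ 0 → 0 < K →
  (∀ i j, |A⁻¹ i j| ≤ K) → 1 ≤ n → Low A (1 / (n * K))

/-- The linear map given by a matrix on the Euclidean space. -/
def lin {n : ℕ} (A : Matrix (Fin n) (Fin n) ℝ) :
    EuclideanSpace ℝ (Fin n) →ₗ[ℝ] EuclideanSpace ℝ (Fin n) := Matrix.toEuclideanLin A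

/-- The `p`-averaged condition number: `(1 / n * ∑ (σ_i / σ_n) ^ p) ^ (1 / p)`, where
`σ_1 ≥ ... ≥ σ_n` are the singular values. -/
def kappa {n : ℕ} (p : ℝ) (A : Matrix (Fin n) (Fin n) ℝ) : ℝ :=
  (1 / n * ∑ i : Fin n, ((lin A).singularValues i / (lin A).singularValues (n - 1)) ^ p) ^ (1 / p)

/-- The averaged condition number and the extreme singular values. -/
def KAPPA : Prop := ∀ (n : ℕ) (p : ℝ) (A : Matrix (Fin n) (Fin n) ℝ), 1 ≤ n → 0 < p →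
  A.det ≠ 0 → ∃ σ : ℝ, 0 < σ ∧ Low A σ ∧ 1 ≤ kappa p A ∧
    (∑ i, ∑ j, |A i j|) / σ ≤ (n : ℝ) ^ 2 * (n : ℝ) ^ (1 / p) * kappa p A

end Pool.Agent.W217.RS
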