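import Pool.Agent.W217.RS.Stm

set_option autoImplicit false

/-!
# The steps of the proof, second part: convergence of the iteration, final statements
-/

open scoped BigOperators

noncomputable section

namespace Pool.Agent.W217.RS

/-- `‖A v‖ ≤ c ‖v‖` for all `v`. -/
def Up {n : ℕ} (A : Matrix (Fin n) (Fin n) ℝ) (c : ℝ) : Prop := ∀ v, nrm (A.mulVec v) ≤ c * nrm v

/-- A numerical sequence. -/
def NUMS : Prop := ∀ (e : ℕ → ℝ) (η δ : ℝ) (k₁ : ℕ), (∀ k, 0 ≤ e k) →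
  (∀ k, e k ≤ 1 → e (k + 1) ≤ e k ^ 2 + η) → 0 < η → 0 < δ → η ≤ δ / 4 → η ≤ 1 / 16 → δ ≤ 1 →
  e 0 ≤ 1 - δ → 1 ≤ 4 * (3 / 2) ^ k₁ * δ →
  (∀ k, e k ≤ 1) ∧ ∀ m k : ℕ, k₁ + 3 + m ≤ k → e k ≤ 1 / 2 ^ m + 2 * η

/-- The matrix of small entries. -/
def SMALL : Prop := ∀ (n : ℕ) (A : Matrix (Fin n) (Fin n) ℝ) (c : ℝ), 0 ≤ c →
  (∀ i j, |A i j| ≤ c) → Up A (n * c)

/-- The sum of the absolute values bounds the norm. -/
def UPSUM : Prop := ∀ (n : ℕ) (A : Matrix (Fin n) (Fin n) ℝ), Up A (∑ i, ∑ j, |A i j|)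

/-- The norm bounds the entries. -/
def ENTR : Prop := ∀ (n : ℕ) (A : Matrix (Fin n) (Fin n) ℝ) (c : ℝ), Up A c → ∀ i j, |A i j| ≤ c

/-- The transposed matrix. -/
def LOWT : Prop := ∀ (n : ℕ) (A : Matrix (Fin n) (Fin n) ℝ) (σ : ℝ), 0 < σ → Low A σ →
  IsUnit A ∧ Low A.transpose σ ∧ Up A⁻¹ (1 / σ)

/-- The transposed matrix. -/
def UPT : Prop := ∀ (n : ℕ) (A : Matrix (Fin n) (Fin n) ℝ) (c : ℝ), 0 ≤ c → Up A c →
  Up A.transpose c

/-- The first residual. -/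
def FIRST : Prop := ∀ (n : ℕ) (A : Matrix (Fin n) (Fin n) ℝ) (σ : ℝ), 0 ≤ σ → σ ≤ 1 → Up A 1 →
  Low A.transpose σ → Up (1 - A * A.transpose) (1 - σ ^ 2 / 2)

/-- One step of the iteration. The matrices `a` and `x` are scaled by `β`. -/
def CSTEP : Prop := ∀ (n : ℕ) (β H σ e : ℝ) (a x : ℕ → ℕ → ℝ), 1 ≤ n → 1 ≤ β →
  (∃ h : ℕ, H = h) → 0 < σ → 4 / σ * β ≤ H → Up (toM n fun i j => a i j / β) 1 →
  Low (toM n fun i j => a i j / β) σ →
  Up (1 - (toM n fun i j => a i j / β) * (toM n fun i j => x i j / β)) e → 0 ≤ e → e ≤ 1 →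
  Up (1 - (toM n fun i j => a i j / β) * (toM n fun i j => nwt n β H a x i j / β))
    (e ^ 2 + n / β)

/-- The final result for random matrices: one program and constants `C`, `k` such that for all
matrices in events of probability tending to one all linear systems are solved with
`C n ^ 2 log ^ k (n / ε)` operations. -/
def FINA : Prop := ∃ (P : Pr) (E : (n : ℕ) → Set (Fin n → Fin n → ℝ)) (C : ℝ) (k : ℕ),
  (∀ n, MeasurableSet (E n)) ∧ Filter.Tendsto (fun n => gauss n (E n)) Filter.atTop (nhds 1) ∧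
  ∀ (n : ℕ), ∀ A ∈ E n, ∀ (b : Fin n → ℝ) (ε : ℝ), 0 < ε → ε < 1 →
    ∃ (t : St) (m : ℕ), Run P (inp (Matrix.of A) b ε) t m ∧
      (m : ℝ) ≤ C * (n : ℝ) ^ 2 * Real.log (n / ε) ^ k ∧
      nrm ((Matrix.of A).mulVec (out n t) - b) ≤ ε * nrm b

/-- The final result on averaged condition numbers: one program that solves all invertible linear
systems with `C n ^ 2 κ_p (1 + log (n / ε)) ^ 3` operations, for every `p > 0`. -/
def FINB : Prop := ∃ P : Pr, ∀ p : ℝ, 0 < p → ∃ C : ℝ,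
  ∀ (n : ℕ) (A : Matrix (Fin n) (Fin n) ℝ) (b : Fin n → ℝ) (ε : ℝ), 1 ≤ n → A.det ≠ 0 → 0 < ε →
    ε < 1 → ∃ (t : St) (m : ℕ), Run P (inp A b ε) t m ∧
      (m : ℝ) ≤ C * (n : ℝ) ^ 2 * kappa p A * (1 + Real.log (n / ε)) ^ 3 ∧
      nrm (out n t - A⁻¹.mulVec b) ≤ ε * nrm (A⁻¹.mulVec b)

end Pool.Agent.W217.RS
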