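import Pool.Agent.W217.RS.Stm2

set_option autoImplicit false

/-!
# The steps of the proof, third part: random matrices with two-valued entries
-/

open scoped BigOperators

noncomputable section

namespace Pool.Agent.W217.RS

/-- The sign of a truth value. -/
def sg (b : Bool) : ℝ := if b then 1 else -1

open Classical in
/-- The proportion of the elements of a finite type with the property `p`: the probability of `p`
for the uniform distribution. -/
def pr {Ω : Type} [Fintype Ω] (p : Ω → Prop) : ℝ :=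
  ((Finset.univ.filter p).card : ℝ) / Fintype.card Ω

/-- The matrix with the entries `c + d` or `c - d`, according to the signs `s`. -/
def two {n : ℕ} (c d : ℝ) (s : Fin n → Fin n → Bool) : Matrix (Fin n) (Fin n) ℝ :=
  fun i j => c + d * sg (s i j)

/-- A sum of independent signs is not concentrated in a short interval. -/
def SBALL : Prop := ∀ (n : ℕ) (w : Fin n → ℝ) (a δ : ℝ), 0 < δ → 4 * δ ≤ nrm w →
  pr (fun s : Fin n → Bool => |∑ k, w k * sg (s k) - a| < δ) ≤ 13 / 16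

open Classical in
/-- The theorem of Erdős, Littlewood and Offord. -/
def ELO : Prop := ∀ (n m : ℕ) (w : Fin n → ℝ) (a r : ℝ), 0 < r → 1 ≤ m →
  m ≤ (Finset.univ.filter fun k => r ≤ |w k|).card →
  pr (fun s : Fin n → Bool => |∑ k, w k * sg (s k) - a| < r) ≤ 1 / Real.sqrt m

open Classical in
/-- At least `m` entries of the vector are not very small. -/
def Spr (n m : ℕ) (v : Fin n → ℝ) : Prop :=
  m ≤ (Finset.univ.filter fun k => 1 / (n : ℝ) ^ 3 ≤ |v k|).card

/-- There is no unit vector with few entries that are not very small and with small scalar products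
with many rows. -/
def NOSP : Prop := ∀ (c d : ℝ) (N n m : ℕ) (I : Finset (Fin N)), 0 < d → |c| + d ≤ 1 →
  24 ≤ d * n ^ 2 →
  pr (fun s : Fin N → Fin n → Bool => ∃ v : Fin n → ℝ, nrm v = 1 ∧ ¬ Spr n m v ∧
    ∀ i ∈ I, |∑ j, (c + d * sg (s i j)) * v j| ≤ 1 / (n : ℝ) ^ 2) ≤
  ((n : ℝ) * (2 * n ^ 3 + 1)) ^ m * (13 / 16) ^ I.card

/-- Changing one row at random. -/
def RESA : Prop := ∀ (n : ℕ) (k : Fin n) (τ : ℝ) (p : (Fin n → Fin n → Bool) → Prop),
  (∀ s, pr (fun t : Fin n → Bool => p (Function.update s k t)) ≤ τ) → pr p ≤ τ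

/-- The probability that the matrix is badly invertible. -/
def DISCM : Prop := ∀ (c d : ℝ) (n m : ℕ), 0 < d → |c| + d ≤ 1 → 24 ≤ d * n ^ 2 → 1 ≤ m →
  1 < d ^ 2 * n →
  pr (fun s : Fin n → Fin n → Bool => ¬ Low (two c d s) (1 / (n : ℝ) ^ 7)) ≤
    (n + 1) * ((n : ℝ) * (2 * n ^ 3 + 1)) ^ m * (13 / 16) ^ (n - 1) + n / (m * Real.sqrt m)

/-- The bound tends to zero. -/
def LIMD : Prop := Filter.Tendsto (fun n : ℕ =>
  ((n : ℝ) + 1) * ((n : ℝ) * (2 * n ^ 3 + 1)) ^ ⌈(n : ℝ) ^ (3 / 4 : ℝ)⌉₊ * (13 / 16) ^ (n - 1) +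
    n / ((⌈(n : ℝ) ^ (3 / 4 : ℝ)⌉₊ : ℝ) * Real.sqrt ⌈(n : ℝ) ^ (3 / 4 : ℝ)⌉₊))
  Filter.atTop (nhds 0)

/-- The final result for random matrices with two-valued entries. -/
def FIND : Prop := ∀ c d : ℝ, 0 < d → |c| + d ≤ 1 →
  ∃ (E : (n : ℕ) → Set (Fin n → Fin n → Bool)) (C : ℝ) (k : ℕ),
  Filter.Tendsto (fun n => pr (fun s => s ∈ E n)) Filter.atTop (nhds 1) ∧
  ∀ (n : ℕ), ∀ s ∈ E n, ∀ (b : Fin n → ℝ) (ε : ℝ), 0 < ε → ε < 1 →
    ∃ (t : St) (m : ℕ), Run pMain (inp (two c d s) b ε) t m ∧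
      (m : ℝ) ≤ C * (n : ℝ) ^ 2 * Real.log (n / ε) ^ k ∧
      nrm ((two c d s).mulVec (out n t) - b) ≤ ε * nrm b

end Pool.Agent.W217.RS
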